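import Pool.Agent.H8.SV.Lift

/-! Small representatives of integral classes over finitely presented groups -/

namespace Pool.Agent.H8.SV

universe u v

/-- The cochain `f` is a coboundary. -/
def IsCobdry {G : Type u} [Mul G] {n : ℕ} (f : (Fin (n + 1) → G) → ℝ) : Prop :=
  ∃ h : (Fin n → G) → ℝ, ∀ g, f g = ∑ i : Fin (n + 2), (-1) ^ (i : ℕ) * h (face g i)

/-- The comparison map from bounded to ordinary real cohomology of `G` vanishes in degree
`n + 1`: every bounded real `(n + 1)`-cocycle is a coboundary. -/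
def ComparisonZero (G : Type u) [Mul G] (n : ℕ) : Prop :=
  ∀ f : (Fin (n + 1) → G) → ℝ, IsBdd f → IsCocycle f → IsCobdry f

/-- Integral cycles of degree `n + 1`. -/
def IsCycle {G : Type u} [Mul G] {n : ℕ} (z : Chain ℤ G (n + 1)) : Prop :=
  bdry ℤ G n z = 0

/-- Homologous integral chains of degree `n + 1`. -/
def Homologous {G : Type u} [Mul G] {n : ℕ} (z z' : Chain ℤ G (n + 1)) : Prop :=
  ∃ y : Chain ℤ G (n + 2), z' = z + bdry ℤ G (n + 1) y

/-- The class of the integral cycle `z` of `G` comes from a class of `l^1`-seminorm at most `C`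
of a finitely presented group `Γ` along a homomorphism `φ : Γ → G`. -/
def FPRep (G : Type u) [Group G] {n : ℕ} (z : Chain ℤ G (n + 1)) (C : ℝ) : Prop :=
  ∃ (Γ : Type) (_ : Group Γ) (_ : Group.IsFinitelyPresented Γ) (φ : Γ →* G)
    (z' : Chain ℤ Γ (n + 1)), IsCycle z' ∧ Homologous z (push ℤ φ (n + 1) z') ∧
      semi (toReal z') ≤ C

/-- Closed oriented smooth 4-manifolds as seen by group homology: each manifold `M` has a
fundamental group `π M`, an integral 4-cycle `fund M` of `π M` which represents the image of the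
fundamental class, a signature and a simplicial volume. The two axioms are Gromov's mapping theorem
(the simplicial volume is the `l^1`-seminorm of the image of the fundamental class in the homology
of the fundamental group) and realisation (every integral class of degree 4 of every finitely
presented group is the image of the fundamental class of a manifold with that fundamental group and
with any given signature). -/
structure FourManifolds where
  /-- the manifolds -/
  Mfd : Type v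
  /-- fundamental groups -/
  π : Mfd → Type
  [grp : ∀ M, Group (π M)]
  /-- cycles that represent the fundamental classes -/
  fund : ∀ M, Chain ℤ (π M) 4
  isCycle_fund : ∀ M, IsCycle (fund M)
  /-- signature -/
  sign : Mfd → ℤ
  /-- simplicial volume -/
  vol : Mfd → ℝ
  mapping : ∀ M, vol M = semi (toReal (fund M))
  realize : ∀ (Γ : Type) [Group Γ] [Group.IsFinitelyPresented Γ] (z : Chain ℤ Γ 4) (σ : ℤ),
    IsCycle z → ∃ (M : Mfd) (e : π M ≃* Γ), sign M = σ ∧ Homologous z (push ℤ e 4 (fund M))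

attribute [instance] FourManifolds.grp

/-- A flat `G`-bundle over a closed oriented 4-manifold, given by its holonomy. -/
structure FlatBundle (𝓜 : FourManifolds.{v}) (G : Type u) [Group G] where
  /-- the base -/
  base : 𝓜.Mfd
  /-- the holonomy -/
  hol : 𝓜.π base →* G

/-- The class of a flat bundle in the 4-chains of `G`. -/
noncomputable def FlatBundle.cls {𝓜 : FourManifolds.{v}} {G : Type u} [Group G]
    (E : FlatBundle 𝓜 G) : Chain ℤ G 4 :=
  push ℤ E.hol 4 (𝓜.fund E.base)

/-- Two flat bundles are bordant (as flat bundles) if their bases have the same signature and their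
classes in the fourth integral homology of `G` agree. -/
def Bordant {𝓜 : FourManifolds.{v}} {G : Type u} [Group G] (E E' : FlatBundle 𝓜 G) : Prop :=
  𝓜.sign E.base = 𝓜.sign E'.base ∧ Homologous E.cls E'.cls

section lemmas

theorem pairR_le_semi {G : Type u} [Mul G] {n : ℕ} (f : (Fin n → G) → ℝ) (B : ℝ)
    (hB : ∀ g, |f g| ≤ B) (hB0 : 0 ≤ B) (hf : IsCocycle f) (c : Chain ℝ G n) :
    |pairR f c| ≤ B * semi c := by
  refine le_of_forall_pos_lt_add fun ε hε => ?_
  obtain ⟨w, hw⟩ := exists_lt_of_semi_lt c (semi c + ε / (B + 1))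
    (by linarith [div_pos hε (by linarith : 0 < B + 1)])
  have h1 := abs_pairR_le f B hB (c + bdry ℝ G n w)
  rw [map_add, pairR_bdry f hf, add_zero] at h1
  have h2 : B * norm1 (c + bdry ℝ G n w) ≤ B * (semi c + ε / (B + 1)) :=
    mul_le_mul_of_nonneg_left hw.le hB0
  have h3 : B * (ε / (B + 1)) < ε := by
    rw [mul_div_assoc', div_lt_iff₀ (by linarith)]
    nlinarith
  linarith

theorem semi_push_le {G : Type u} {H : Type v} [Group G] [Group H] {n : ℕ} (φ : G →* H)
    (c : Chain ℝ G n) : semi (push ℝ φ n c) ≤ semi c := by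
  refine le_of_forall_pos_lt_add fun ε hε => ?_
  obtain ⟨w, hw⟩ := exists_lt_of_semi_lt c (semi c + ε) (by linarith)
  have h := semi_le (push ℝ φ n c) (push ℝ φ (n + 1) w)
  rw [bdry_push_hom, ← map_add] at h
  exact (h.trans (norm1_push_le _ _)).trans_lt hw

theorem semi_add_bdry {G : Type u} [Mul G] {n : ℕ} (c : Chain ℝ G n) (w : Chain ℝ G (n + 1)) :
    semi (c + bdry ℝ G n w) ≤ semi c := by
  have := semi_add c (bdry ℝ G n w)
  linarith [semi_bdry w]

theorem push_push {G H K : Type*} (R : Type*) [CommRing R] (f : G → H) (g : H → K) (n : ℕ)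
    (c : Chain R G n) : push R g n (push R f n c) = push R (fun x => g (f x)) n c := by
  simp only [push, Finsupp.lmapDomain_apply]
  rw [← Finsupp.mapDomain_comp]
  rfl

theorem push_congr {G H : Type*} (R : Type*) [CommRing R] (f g : G → H) (n : ℕ)
    (c : Chain R G n) (h : ∀ x ∈ c.support, ∀ i, f (x i) = g (x i)) :
    push R f n c = push R g n c := by
  simp only [push, Finsupp.lmapDomain_apply]
  exact Finsupp.mapDomain_congr fun x hx => funext fun i => h x hx i

theorem push_id {G : Type*} (R : Type*) [CommRing R] (n : ℕ) (c : Chain R G n) :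
    push R (fun x => x) n c = c := by
  simp only [push, Finsupp.lmapDomain_apply]
  exact Finsupp.mapDomain_id

/-- Integral evaluation of a coboundary on a cycle. -/
theorem pair_cobdry {G : Type u} [Mul G] {n : ℕ} (f : (Fin (n + 1) → G) → ℝ) (hf : IsCobdry f)
    (z : Chain ℤ G (n + 1)) (hz : IsCycle z) : pair f z = 0 := by
  obtain ⟨h, hh⟩ := hf
  have key : ∀ c : Chain ℝ G (n + 1), pairR f c = pairR h (bdry ℝ G n c) := by
    intro c
    induction c using Finsupp.induction_linear with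
    | zero => simp
    | add y z hy hz => rw [map_add, map_add, map_add, hy, hz]
    | single g a =>
      rw [bdry_single, map_smul, bdrySingle, map_sum, pairR, Finsupp.linearCombination_single, hh]
      congr 1
      refine Finset.sum_congr rfl fun i _ => ?_
      rw [pairR, Finsupp.linearCombination_single, smul_eq_mul]
  rw [← pairR_toReal, key, ← toReal_bdry]
  rw [IsCycle] at hz
  rw [hz, toReal_zero, map_zero]

/-- Evaluation on integral chains as an additive map. -/
theorem pair_add {G : Type u} {n : ℕ} (f : (Fin n → G) → ℝ) (y z : Chain ℤ G n) :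
    pair f (y + z) = pair f y + pair f z := by
  rw [← pairR_toReal, ← pairR_toReal, ← pairR_toReal, toReal_add, map_add]

theorem pair_zero {G : Type u} {n : ℕ} (f : (Fin n → G) → ℝ) :
    pair f (0 : Chain ℤ G n) = 0 := by
  simp [pair]

/-- A real cochain which vanishes on the integral cycles is a coboundary (as the real numbers
form an injective abelian group). -/
theorem isCobdry_of_pair {G : Type u} [Mul G] {n : ℕ} (f : (Fin (n + 1) → G) → ℝ)
    (h : ∀ z : Chain ℤ G (n + 1), IsCycle z → pair f z = 0) : IsCobdry f := by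
  set F : Chain ℤ G (n + 1) →+ ℝ :=
    { toFun := pair f, map_zero' := pair_zero f, map_add' := pair_add f } with hF
  set d : Chain ℤ G (n + 1) →ₗ[ℤ] Chain ℤ G n := bdry ℤ G n with hd
  have hker : LinearMap.ker d ≤ LinearMap.ker F.toIntLinearMap := by
    intro z hz
    exact h z hz
  set j : (Chain ℤ G (n + 1) ⧸ LinearMap.ker d) →ₗ[ℤ] Chain ℤ G n :=
    (LinearMap.ker d).liftQ d le_rfl with hj
  have hinj : Function.Injective j := by
    rw [← LinearMap.ker_eq_bot]
    exact Submodule.ker_liftQ_eq_bot _ _ _ le_rfl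
  obtain ⟨H, hH⟩ := (Module.Baer.of_divisible ℝ).extension_property j hinj
    ((LinearMap.ker d).liftQ F.toIntLinearMap hker)
  have hH' : ∀ z, H (d z) = pair f z := by
    intro z
    have h1 := LinearMap.congr_fun hH (Submodule.Quotient.mk z)
    have h2 : H (d z) = F z := by simpa [hj] using h1
    exact h2
  refine ⟨fun g => H (Finsupp.single g 1), fun g => ?_⟩
  have h1 := hH' (Finsupp.single g 1)
  have h2 : pair f (Finsupp.single g 1) = f g := by
    simp [pair]
  rw [h2, hd, bdry_single, one_smul, bdrySingle, map_sum] at h1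
  rw [← h1]
  refine Finset.sum_congr rfl fun i _ => ?_
  have h3 : Finsupp.single (face g i) ((-1 : ℤ) ^ (i : ℕ)) =
      ((-1 : ℤ) ^ (i : ℕ)) • Finsupp.single (face g i) (1 : ℤ) := by
    rw [Finsupp.smul_single, smul_eq_mul, mul_one]
  rw [h3, map_smul, zsmul_eq_mul]
  push_cast
  rfl

end lemmas

section main

variable {G : Type u} [Group G] {n : ℕ}

theorem isCocycle_comp {H : Type v} [Group H] (φ : H →* G) (f : (Fin n → G) → ℝ)
    (hf : IsCocycle f) : IsCocycle (fun g : Fin n → H => f (fun i => φ (g i))) := by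
  intro g
  rw [← hf (fun k => φ (g k))]
  refine Finset.sum_congr rfl fun i _ => ?_
  rw [face_comp φ g (fun _ => map_mul φ _ _)]

theorem pair_bdry (f : (Fin (n + 1) → G) → ℝ) (hf : IsCocycle f) (y : Chain ℤ G (n + 2)) :
    pair f (bdry ℤ G (n + 1) y) = 0 := by
  rw [← pairR_toReal, toReal_bdry, pairR_bdry f hf]

/-- The Milnor-Wood type inequality. -/
theorem pair_le {Γ : Type v} [Group Γ] (φ : Γ →* G) (f : (Fin (n + 1) → G) → ℝ)
    (hf : IsCocycle f) (B : ℝ) (hB0 : 0 ≤ B) (hB : ∀ g, |f g| ≤ B) (z : Chain ℤ G (n + 1))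
    (z' : Chain ℤ Γ (n + 1)) (h : Homologous z (push ℤ φ (n + 1) z')) :
    |pair f z| ≤ B * semi (toReal z') := by
  obtain ⟨y, hy⟩ := h
  have h1 : pair f z = pair f (push ℤ φ (n + 1) z') := by
    rw [hy, pair_add, pair_bdry f hf, add_zero]
  rw [h1, ← pairR_toReal, toReal_push, pairR_push]
  exact pairR_le_semi _ B (fun g => hB _) hB0 (isCocycle_comp φ f hf) _

omit [Group G] in
theorem pair_nsmul (f : (Fin n → G) → ℝ) (k : ℕ) (z : Chain ℤ G n) :
    pair f (k • z) = k * pair f z := by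
  induction k with
  | zero => simp [pair_zero]
  | succ k ih =>
    rw [succ_nsmul, pair_add, ih]
    push_cast
    ring

theorem isCycle_nsmul (k : ℕ) (z : Chain ℤ G (n + 1)) (hz : IsCycle z) : IsCycle (k • z) := by
  rw [IsCycle] at hz ⊢
  rw [map_nsmul, hz, smul_zero]

theorem comparison_of_bound (C : ℝ)
    (h : ∀ z : Chain ℤ G (n + 1), IsCycle z → ∃ (Γ : Type) (_ : Group Γ) (φ : Γ →* G)
      (z' : Chain ℤ Γ (n + 1)), Homologous z (push ℤ φ (n + 1) z') ∧ semi (toReal z') ≤ C) :
    ComparisonZero G n := by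
  intro f hb hf
  obtain ⟨B', hB'⟩ := hb
  have hB0 : 0 ≤ |B'| := abs_nonneg _
  have hB : ∀ g, |f g| ≤ |B'| := fun g => (hB' g).trans (le_abs_self _)
  refine isCobdry_of_pair f fun z hz => ?_
  by_contra hne
  have hpos : 0 < |pair f z| := abs_pos.2 hne
  obtain ⟨k, hk⟩ := exists_nat_gt (|B'| * C / |pair f z|)
  rw [div_lt_iff₀ hpos] at hk
  obtain ⟨Γ, _, φ, z', hz', hC⟩ := h (k • z) (isCycle_nsmul k z hz)
  have h1 := pair_le φ f hf |B'| hB0 hB (k • z) z' hz'
  rw [pair_nsmul, abs_mul, Nat.abs_cast] at h1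
  have h2 := mul_le_mul_of_nonneg_left hC hB0
  linarith

theorem fpRep_of_comparison (h : ComparisonZero G n) (z : Chain ℤ G (n + 1)) (hz : IsCycle z)
    (ε : ℝ) (hε : 0 < ε) : ∃ (Γ : Type) (_ : Group Γ) (_ : Group.IsFinitelyPresented Γ)
      (φ : Γ →* G) (z' : Chain ℤ Γ (n + 1)), IsCycle z' ∧ push ℤ φ (n + 1) z' = z ∧
        semi (toReal z') < ε := by
  classical
  have hs : semi (toReal z) ≤ 0 := by
    refine semi_le_zero _ fun f hb hc => ?_
    rw [pairR_toReal]
    exact pair_cobdry f (h f hb hc) z hz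
  obtain ⟨w, hw⟩ := exists_lt_of_semi_lt (toReal z) ε (hs.trans_lt hε)
  obtain ⟨T₁, hT₁⟩ := exists_table z.support
  obtain ⟨T₂, hT₂⟩ := exists_table w.support
  obtain ⟨Γ, hG, hfp, φ, s, hφ, hmul⟩ := exists_fp_cover (T₁ ∪ T₂)
  have h1 : ∀ g ∈ z.support, ∀ i : Fin n,
      s (g i.castSucc * g i.succ) = s (g i.castSucc) * s (g i.succ) := by
    intro g hg i
    obtain ⟨ha, hb⟩ := hT₁ g hg
    exact hmul _ (Finset.mem_union_left _ (ha _)) _ (Finset.mem_union_left _ (ha _))
      (Finset.mem_union_left _ (hb i))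
  have h2 : ∀ g ∈ w.support, ∀ i : Fin (n + 1),
      s (g i.castSucc * g i.succ) = s (g i.castSucc) * s (g i.succ) := by
    intro g hg i
    obtain ⟨ha, hb⟩ := hT₂ g hg
    exact hmul _ (Finset.mem_union_right _ (ha _)) _ (Finset.mem_union_right _ (ha _))
      (Finset.mem_union_right _ (hb i))
  refine ⟨Γ, hG, hfp, φ, push ℤ s (n + 1) z, ?_, ?_, ?_⟩
  · rw [IsCycle] at hz ⊢
    rw [bdry_push ℤ s z h1, hz, map_zero]
  · rw [push_push, push_congr ℤ (fun x => φ (s x)) (fun x => x), push_id]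
    intro g hg i
    exact hφ _ (Finset.mem_union_left _ ((hT₁ g hg).1 i))
  · refine (semi_le _ (push ℝ s (n + 2) w)).trans_lt ?_
    rw [toReal_push, bdry_push ℝ s w h2, ← map_add]
    exact (norm1_push_le _ _).trans_lt hw

theorem fpRep_eps (h : ComparisonZero G n) (z : Chain ℤ G (n + 1)) (hz : IsCycle z)
    (ε : ℝ) (hε : 0 < ε) : FPRep G z ε := by
  obtain ⟨Γ, hG, hfp, φ, z', hz', hp, hs⟩ := fpRep_of_comparison h z hz ε hε
  exact ⟨Γ, hG, hfp, φ, z', hz', ⟨0, by rw [hp, map_zero, add_zero]⟩, hs.le⟩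

theorem exists_bundle (𝓜 : FourManifolds.{v}) (z : Chain ℤ G 4) (C : ℝ) (σ : ℤ)
    (h : FPRep G z C) :
    ∃ E : FlatBundle 𝓜 G, 𝓜.sign E.base = σ ∧ Homologous z E.cls ∧ 𝓜.vol E.base ≤ C := by
  obtain ⟨Γ, hG, hfp, φ, z', hz', ⟨y₀, hy₀⟩, hs⟩ := h
  obtain ⟨M, e, hσ, y, hy⟩ := 𝓜.realize Γ z' σ hz'
  refine ⟨⟨M, φ.comp e.toMonoidHom⟩, hσ, ⟨y₀ + push ℤ φ 5 y, ?_⟩, ?_⟩
  · have h1 : push ℤ (φ.comp e.toMonoidHom) 4 (𝓜.fund M) =
        push ℤ φ 4 (push ℤ e 4 (𝓜.fund M)) := by
      rw [push_push]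
      rfl
    rw [FlatBundle.cls]
    simp only
    rw [h1, hy, map_add, hy₀, map_add, bdry_push_hom]
    abel
  · simp only
    rw [𝓜.mapping M]
    have h1 : toReal (𝓜.fund M) =
        push ℝ e.symm.toMonoidHom 4 (push ℝ e 4 (toReal (𝓜.fund M))) := by
      rw [push_push]
      have : (fun x => e.symm.toMonoidHom (e x)) = fun x => x := by
        funext x
        exact e.symm_apply_apply x
      rw [this, push_id]
    rw [h1]
    refine (semi_push_le e.symm.toMonoidHom _).trans ?_
    rw [← toReal_push, hy, toReal_add, toReal_bdry]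
    exact (semi_add_bdry _ _).trans hs

/-- Every integral cycle comes from a finitely presented group. -/
theorem exists_fpRep (z : Chain ℤ G (n + 1)) (hz : IsCycle z) : ∃ C, FPRep G z C := by
  classical
  obtain ⟨T, hT⟩ := exists_table z.support
  obtain ⟨Γ, hG, hfp, φ, s, hφ, hmul⟩ := exists_fp_cover T
  have h1 : ∀ g ∈ z.support, ∀ i : Fin n,
      s (g i.castSucc * g i.succ) = s (g i.castSucc) * s (g i.succ) := by
    intro g hg i
    obtain ⟨ha, hb⟩ := hT g hg
    exact hmul _ (ha _) _ (ha _) (hb i)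
  refine ⟨_, Γ, hG, hfp, φ, push ℤ s (n + 1) z, ?_, ⟨0, ?_⟩, le_rfl⟩
  · rw [IsCycle] at hz ⊢
    rw [bdry_push ℤ s z h1, hz, map_zero]
  · rw [push_push, push_congr ℤ (fun x => φ (s x)) (fun x => x), push_id, map_zero, add_zero]
    intro g hg i
    exact hφ _ ((hT g hg).1 i)

theorem isCycle_cls {𝓜 : FourManifolds.{v}} (E : FlatBundle 𝓜 G) : IsCycle E.cls := by
  rw [IsCycle, FlatBundle.cls, bdry_push_hom]
  have := 𝓜.isCycle_fund E.base
  rw [IsCycle] at this
  rw [this, map_zero]

theorem Homologous.trans {z₁ z₂ z₃ : Chain ℤ G (n + 1)} (h : Homologous z₁ z₂)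
    (h' : Homologous z₂ z₃) : Homologous z₁ z₃ := by
  obtain ⟨y, rfl⟩ := h
  obtain ⟨y', rfl⟩ := h'
  exact ⟨y + y', by rw [map_add]; abel⟩

theorem fp_tfae (G : Type u) [Group G] (n : ℕ) :
    [ComparisonZero G n,
      ∃ C : ℝ, ∀ z : Chain ℤ G (n + 1), IsCycle z → FPRep G z C,
      ∀ ε > 0, ∀ z : Chain ℤ G (n + 1), IsCycle z → FPRep G z ε].TFAE := by
  tfae_have 1 → 3 := fun h ε hε z hz => fpRep_eps h z hz ε hε
  tfae_have 3 → 2 := fun h => ⟨1, h 1 one_pos⟩
  tfae_have 2 → 1 := by
    rintro ⟨C, hC⟩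
    refine comparison_of_bound C fun z hz => ?_
    obtain ⟨Γ, hG, _, φ, z', _, hz', hs⟩ := hC z hz
    exact ⟨Γ, hG, φ, z', hz', hs⟩
  tfae_finish

theorem bundle_tfae (𝓜 : FourManifolds.{v}) (G : Type u) [Group G] :
    [ComparisonZero G 3,
      ∃ C : ℝ, ∀ E : FlatBundle 𝓜 G, ∃ E' : FlatBundle 𝓜 G,
        Bordant E E' ∧ 𝓜.vol E'.base ≤ C,
      ∀ ε > 0, ∀ E : FlatBundle 𝓜 G, ∃ E' : FlatBundle 𝓜 G,
        Bordant E E' ∧ 𝓜.vol E'.base ≤ ε].TFAE := by
  tfae_have 1 → 3 := by
    intro h ε hε E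
    obtain ⟨E', h1, h2, h3⟩ :=
      exists_bundle 𝓜 E.cls ε (𝓜.sign E.base) (fpRep_eps h E.cls (isCycle_cls E) ε hε)
    exact ⟨E', ⟨h1.symm, h2⟩, h3⟩
  tfae_have 3 → 2 := fun h => ⟨1, h 1 one_pos⟩
  tfae_have 2 → 1 := by
    rintro ⟨C, hC⟩
    refine comparison_of_bound C fun z hz => ?_
    obtain ⟨C', hC'⟩ := exists_fpRep z hz
    obtain ⟨E, _, hE, _⟩ := exists_bundle 𝓜 z C' 0 hC'
    obtain ⟨E', ⟨_, hE'⟩, hs⟩ := hC E
    refine ⟨𝓜.π E'.base, inferInstance, E'.hol, 𝓜.fund E'.base, hE.trans hE', ?_⟩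
    rw [← 𝓜.mapping]
    exact hs
  tfae_finish

end main

end Pool.Agent.H8.SV
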