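import Mathlib

/-! Integral group cycles, bounded cocycles and the `l^1`-seminorm -/

namespace Pool.Agent.H8.SV

universe u v

/-- Inhomogeneous `n`-chains of `G` with coefficients in `R`. -/
abbrev Chain (R : Type v) [CommRing R] (G : Type u) (n : ℕ) := (Fin n → G) →₀ R

/-- The faces of an `(n + 1)`-tuple in the bar complex: drop the first entry, multiply two
neighbouring entries, drop the last entry. -/
def face {G : Type u} [Mul G] {n : ℕ} (g : Fin (n + 1) → G) (i : Fin (n + 2)) : Fin n → G :=
  Fin.cases (motive := fun _ => Fin n → G) (fun k => g k.succ)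
    (fun j => Fin.contractNth j (· * ·) g) i

/-- The boundary of an `(n + 1)`-tuple. -/
noncomputable def bdrySingle (R : Type v) [CommRing R] {G : Type u} [Mul G] {n : ℕ}
    (g : Fin (n + 1) → G) : Chain R G n :=
  ∑ i : Fin (n + 2), Finsupp.single (face g i) ((-1 : R) ^ (i : ℕ))

/-- The boundary map of the bar complex. -/
noncomputable def bdry (R : Type v) [CommRing R] (G : Type u) [Mul G] (n : ℕ) :
    Chain R G (n + 1) →ₗ[R] Chain R G n :=
  Finsupp.linearCombination R (bdrySingle R)

/-- The map on chains induced by a map of groups. -/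
noncomputable def push (R : Type v) [CommRing R] {G : Type u} {H : Type*} (f : G → H) (n : ℕ) :
    Chain R G n →ₗ[R] Chain R H n :=
  Finsupp.lmapDomain R R (fun g i => f (g i))

/-- The real chain of an integral chain. -/
noncomputable def toReal {G : Type u} {n : ℕ} (z : Chain ℤ G n) : Chain ℝ G n :=
  Finsupp.mapRange (fun a : ℤ => (a : ℝ)) (by simp) z

/-- The `l^1`-norm of a real chain. -/
noncomputable def norm1 {G : Type u} {n : ℕ} (c : Chain ℝ G n) : ℝ :=
  c.sum fun _ a => |a|

/-- Evaluation of a real cochain on an integral chain. -/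
noncomputable def pair {G : Type u} {n : ℕ} (f : (Fin n → G) → ℝ) (z : Chain ℤ G n) : ℝ :=
  z.sum fun g a => a * f g

/-- A real `n`-cocycle. -/
def IsCocycle {G : Type u} [Mul G] {n : ℕ} (f : (Fin n → G) → ℝ) : Prop :=
  ∀ g : Fin (n + 1) → G, ∑ i : Fin (n + 2), (-1) ^ (i : ℕ) * f (face g i) = 0

/-- A bounded cochain. -/
def IsBdd {G : Type u} {n : ℕ} (f : (Fin n → G) → ℝ) : Prop :=
  ∃ B : ℝ, ∀ g, |f g| ≤ B

section norm

variable {G : Type u} {H : Type*} {n : ℕ}

theorem norm1_single (g : Fin n → G) (a : ℝ) : norm1 (Finsupp.single g a) = |a| := by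
  rw [norm1, Finsupp.sum_single_index (by simp)]

theorem norm1_zero : norm1 (0 : Chain ℝ G n) = 0 := by
  simp [norm1]

theorem norm1_nonneg (c : Chain ℝ G n) : 0 ≤ norm1 c :=
  Finset.sum_nonneg fun _ _ => abs_nonneg _

theorem norm1_eq_sum (c : Chain ℝ G n) (s : Finset (Fin n → G)) (hs : c.support ⊆ s) :
    norm1 c = ∑ g ∈ s, |c g| := by
  rw [norm1, Finsupp.sum]
  refine Finset.sum_subset hs ?_
  intro g _ hg
  rw [Finsupp.notMem_support_iff] at hg
  simp [hg]

theorem norm1_add_le (c d : Chain ℝ G n) : norm1 (c + d) ≤ norm1 c + norm1 d := by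
  classical
  rw [norm1_eq_sum (c + d) (c.support ∪ d.support) Finsupp.support_add,
    norm1_eq_sum c (c.support ∪ d.support) Finset.subset_union_left,
    norm1_eq_sum d (c.support ∪ d.support) Finset.subset_union_right,
    ← Finset.sum_add_distrib]
  refine Finset.sum_le_sum fun g _ => ?_
  rw [Finsupp.add_apply]
  exact abs_add_le _ _

theorem norm1_smul (a : ℝ) (c : Chain ℝ G n) : norm1 (a • c) = |a| * norm1 c := by
  rw [norm1_eq_sum (a • c) c.support Finsupp.support_smul, norm1_eq_sum c c.support subset_rfl,
    Finset.mul_sum]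
  refine Finset.sum_congr rfl fun g _ => ?_
  rw [Finsupp.smul_apply, smul_eq_mul, abs_mul]

theorem norm1_push_le (f : G → H) (c : Chain ℝ G n) : norm1 (push ℝ f n c) ≤ norm1 c := by
  classical
  induction c using Finsupp.induction with
  | zero => simp [norm1_zero]
  | single_add g a c hg ha ih =>
    have h1 : norm1 (Finsupp.single g a + c) = |a| + norm1 c := by
      rw [norm1, Finsupp.sum_add_index_of_disjoint, ← norm1, ← norm1, norm1_single]
      rw [Finset.disjoint_left]
      intro x hx hx'
      have := Finsupp.support_single_subset hx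
      rw [Finset.mem_singleton] at this
      subst this
      exact hg hx'
    rw [map_add, h1]
    refine (norm1_add_le _ _).trans (add_le_add ?_ ih)
    rw [push, Finsupp.lmapDomain_apply, Finsupp.mapDomain_single, norm1_single]

/-- Evaluation of a real cochain on a real chain. -/
noncomputable def pairR (f : (Fin n → G) → ℝ) : Chain ℝ G n →ₗ[ℝ] ℝ :=
  Finsupp.linearCombination ℝ f

theorem pairR_toReal (f : (Fin n → G) → ℝ) (z : Chain ℤ G n) :
    pairR f (toReal z) = pair f z := by
  rw [pairR, Finsupp.linearCombination_apply, toReal, Finsupp.sum_mapRange_index (by simp), pair]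
  rfl

theorem abs_pairR_le (f : (Fin n → G) → ℝ) (B : ℝ) (hB : ∀ g, |f g| ≤ B) (c : Chain ℝ G n) :
    |pairR f c| ≤ B * norm1 c := by
  rw [pairR, Finsupp.linearCombination_apply, Finsupp.sum, norm1, Finsupp.sum, Finset.mul_sum]
  refine (Finset.abs_sum_le_sum_abs _ _).trans (Finset.sum_le_sum fun g _ => ?_)
  rw [smul_eq_mul, abs_mul, mul_comm]
  exact mul_le_mul_of_nonneg_right (hB g) (abs_nonneg _)

theorem pairR_push (f : (Fin n → H) → ℝ) (φ : G → H) (c : Chain ℝ G n) :
    pairR f (push ℝ φ n c) = pairR (fun g => f (fun i => φ (g i))) c := by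
  rw [pairR, push, Finsupp.lmapDomain_apply, Finsupp.linearCombination_mapDomain]
  rfl

theorem toReal_add (y z : Chain ℤ G n) : toReal (y + z) = toReal y + toReal z := by
  ext g
  simp [toReal]

theorem toReal_single (g : Fin n → G) (a : ℤ) :
    toReal (Finsupp.single g a) = Finsupp.single g (a : ℝ) := by
  simp [toReal]

theorem toReal_zero : toReal (0 : Chain ℤ G n) = 0 := by
  simp [toReal]

theorem toReal_push (φ : G → H) (z : Chain ℤ G n) :
    toReal (push ℤ φ n z) = push ℝ φ n (toReal z) := by
  induction z using Finsupp.induction_linear with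
  | zero => simp [toReal_zero]
  | add y z hy hz => rw [map_add, toReal_add, toReal_add, map_add, hy, hz]
  | single g a =>
    rw [toReal_single]
    simp only [push, Finsupp.lmapDomain_apply, Finsupp.mapDomain_single, toReal_single]

end norm

section bdry

variable {G : Type u} {H : Type*} [Mul G] [Mul H] {n : ℕ}

theorem bdry_single (R : Type v) [CommRing R] (g : Fin (n + 1) → G) (a : R) :
    bdry R G n (Finsupp.single g a) = a • bdrySingle R g := by
  simp [bdry]

theorem pairR_bdry (f : (Fin n → G) → ℝ) (hf : IsCocycle f) (c : Chain ℝ G (n + 1)) :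
    pairR f (bdry ℝ G n c) = 0 := by
  induction c using Finsupp.induction_linear with
  | zero => simp
  | add y z hy hz => rw [map_add, map_add, hy, hz, add_zero]
  | single g a =>
    rw [bdry_single, map_smul, bdrySingle, map_sum]
    have : ∑ i : Fin (n + 2), pairR f (Finsupp.single (face g i) ((-1 : ℝ) ^ (i : ℕ))) = 0 := by
      rw [← hf g]
      refine Finset.sum_congr rfl fun i _ => ?_
      rw [pairR, Finsupp.linearCombination_single, smul_eq_mul]
    rw [this, smul_zero]

theorem toReal_bdry (z : Chain ℤ G (n + 1)) : toReal (bdry ℤ G n z) = bdry ℝ G n (toReal z) := by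
  induction z using Finsupp.induction_linear with
  | zero => simp [toReal_zero]
  | add y z hy hz => rw [map_add, toReal_add, toReal_add, map_add, hy, hz]
  | single g a =>
    rw [toReal_single, bdry_single, bdry_single, bdrySingle, bdrySingle]
    ext h
    simp only [toReal, Finsupp.mapRange_apply, Finsupp.smul_apply, Finsupp.finsetSum_apply,
      smul_eq_mul]
    push_cast
    congr 1
    refine Finset.sum_congr rfl fun i _ => ?_
    classical
    rw [Finsupp.single_apply, Finsupp.single_apply]
    split_ifs <;> simp

/-- A map of sets commutes with the faces of a tuple if it is multiplicative on neighbouring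
entries. -/
theorem face_comp (s : G → H) (g : Fin (n + 1) → G)
    (hs : ∀ i : Fin n, s (g i.castSucc * g i.succ) = s (g i.castSucc) * s (g i.succ))
    (i : Fin (n + 2)) : face (fun k => s (g k)) i = fun k => s (face g i k) := by
  refine Fin.cases ?_ (fun j => ?_) i
  · rfl
  · funext k
    simp only [face, Fin.cases_succ, Fin.contractNth]
    split_ifs
    · rfl
    · exact (hs k).symm
    · rfl

theorem bdry_push (R : Type v) [CommRing R] (s : G → H) (c : Chain R G (n + 1))
    (hs : ∀ g ∈ c.support, ∀ i : Fin n,
      s (g i.castSucc * g i.succ) = s (g i.castSucc) * s (g i.succ)) :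
    bdry R H n (push R s (n + 1) c) = push R s n (bdry R G n c) := by
  have h : ∀ g ∈ c.support, bdrySingle R (fun k => s (g k)) = push R s n (bdrySingle R g) := by
    intro g hg
    rw [bdrySingle, bdrySingle, map_sum]
    refine Finset.sum_congr rfl fun i _ => ?_
    rw [push, Finsupp.lmapDomain_apply, Finsupp.mapDomain_single, face_comp s g (hs g hg) i]
  rw [bdry, push, Finsupp.lmapDomain_apply, Finsupp.linearCombination_mapDomain, bdry,
    Finsupp.linearCombination_apply, Finsupp.linearCombination_apply, Finsupp.sum, Finsupp.sum,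
    map_sum]
  refine Finset.sum_congr rfl fun g hg => ?_
  rw [map_smul, ← h g hg]
  rfl

theorem bdry_push_hom {G : Type u} {H : Type*} [Group G] [Group H] (R : Type v) [CommRing R]
    (φ : G →* H) (c : Chain R G (n + 1)) :
    bdry R H n (push R φ (n + 1) c) = push R φ n (bdry R G n c) :=
  bdry_push R φ c fun _ _ _ => map_mul φ _ _

end bdry

end Pool.Agent.H8.SV
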