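import Pool.Agent.H8.SV.Basic

/-! Finitely presented covers and the duality argument -/

namespace Pool.Agent.H8.SV

universe u v

/-- Every finite part of the multiplication table of a group lifts to a finitely presented
group. -/
theorem exists_fp_cover {G : Type u} [Group G] (T : Finset G) :
    ∃ (Γ : Type) (_ : Group Γ) (_ : Group.IsFinitelyPresented Γ) (φ : Γ →* G) (s : G → Γ),
      (∀ g ∈ T, φ (s g) = g) ∧
        ∀ g ∈ T, ∀ h ∈ T, g * h ∈ T → s (g * h) = s g * s h := by
  classical
  set k := T.card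
  set en : Fin k → G := fun i => (T.equivFin.symm i : G) with hen
  set rels : Set (FreeGroup (Fin k)) :=
    (fun t : Fin k × Fin k × Fin k =>
      FreeGroup.of t.1 * FreeGroup.of t.2.1 * (FreeGroup.of t.2.2)⁻¹) ''
        {t | en t.1 * en t.2.1 = en t.2.2} with hrels
  have hfin : rels.Finite := (Set.toFinite _).image _
  have : Finite rels := hfin
  have hlift : ∀ r ∈ rels, FreeGroup.lift en r = 1 := by
    rintro r ⟨t, ht, rfl⟩
    rw [Set.mem_ofPred_eq] at ht
    simp [ht]
  refine ⟨PresentedGroup rels, inferInstance, inferInstance, PresentedGroup.toGroup hlift,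
    fun g => if h : g ∈ T then PresentedGroup.of (T.equivFin ⟨g, h⟩) else 1, ?_, ?_⟩
  · intro g hg
    simp only [hg, dite_true]
    rw [PresentedGroup.toGroup.of]
    simp [hen]
  · intro g hg h hh hgh
    simp only [hg, hh, hgh, dite_true]
    have key : PresentedGroup.mk rels (FreeGroup.of (T.equivFin ⟨g, hg⟩) *
        FreeGroup.of (T.equivFin ⟨h, hh⟩) * (FreeGroup.of (T.equivFin ⟨g * h, hgh⟩))⁻¹) = 1 := by
      apply PresentedGroup.one_of_mem
      refine ⟨(T.equivFin ⟨g, hg⟩, T.equivFin ⟨h, hh⟩, T.equivFin ⟨g * h, hgh⟩), ?_, rfl⟩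
      simp [hen]
    rw [map_mul, map_inv, mul_inv_eq_one, map_mul] at key
    exact key.symm

/-- The finite set of entries and products of neighbouring entries of a chain. -/
theorem exists_table {G : Type u} [Group G] {n : ℕ} (A : Finset (Fin (n + 1) → G)) :
    ∃ T : Finset G, ∀ g ∈ A, (∀ i, g i ∈ T) ∧ ∀ i : Fin n, g i.castSucc * g i.succ ∈ T := by
  classical
  refine ⟨A.biUnion (fun g => Finset.univ.image g) ∪
    A.biUnion (fun g => Finset.univ.image fun i : Fin n => g i.castSucc * g i.succ), ?_⟩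
  intro g hg
  constructor
  · intro i
    refine Finset.mem_union_left _ (Finset.mem_biUnion.2 ⟨g, hg, ?_⟩)
    exact Finset.mem_image_of_mem g (Finset.mem_univ i)
  · intro i
    refine Finset.mem_union_right _ (Finset.mem_biUnion.2 ⟨g, hg, ?_⟩)
    exact Finset.mem_image_of_mem (fun i : Fin n => g i.castSucc * g i.succ) (Finset.mem_univ i)

theorem norm1_neg {G : Type u} {n : ℕ} (c : Chain ℝ G n) : norm1 (-c) = norm1 c := by
  have := norm1_smul (-1) c
  simpa using this

/-- The `l^1`-seminorm modulo boundaries. -/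
noncomputable def semi {G : Type u} [Mul G] {n : ℕ} (c : Chain ℝ G n) : ℝ :=
  sInf (Set.range fun w : Chain ℝ G (n + 1) => norm1 (c + bdry ℝ G n w))

section semi

variable {G : Type u} [Mul G] {n : ℕ}

theorem semi_bdd (c : Chain ℝ G n) :
    BddBelow (Set.range fun w : Chain ℝ G (n + 1) => norm1 (c + bdry ℝ G n w)) :=
  ⟨0, by rintro _ ⟨w, rfl⟩; exact norm1_nonneg _⟩

theorem semi_le (c : Chain ℝ G n) (w : Chain ℝ G (n + 1)) :
    semi c ≤ norm1 (c + bdry ℝ G n w) :=
  csInf_le (semi_bdd c) ⟨w, rfl⟩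

theorem exists_lt_of_semi_lt (c : Chain ℝ G n) (ε : ℝ) (h : semi c < ε) :
    ∃ w : Chain ℝ G (n + 1), norm1 (c + bdry ℝ G n w) < ε := by
  obtain ⟨_, ⟨w, rfl⟩, hw⟩ := exists_lt_of_csInf_lt (Set.range_nonempty _) h
  exact ⟨w, hw⟩

theorem semi_nonneg (c : Chain ℝ G n) : 0 ≤ semi c :=
  le_csInf (Set.range_nonempty _) (by rintro _ ⟨w, rfl⟩; exact norm1_nonneg _)

theorem semi_add (c d : Chain ℝ G n) : semi (c + d) ≤ semi c + semi d := by
  refine le_of_forall_pos_lt_add fun ε hε => ?_
  obtain ⟨w, hw⟩ := exists_lt_of_semi_lt c (semi c + ε / 2) (by linarith)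
  obtain ⟨v, hv⟩ := exists_lt_of_semi_lt d (semi d + ε / 2) (by linarith)
  have h1 := semi_le (c + d) (w + v)
  have h2 : c + d + bdry ℝ G n (w + v) = (c + bdry ℝ G n w) + (d + bdry ℝ G n v) := by
    rw [map_add]
    abel
  rw [h2] at h1
  have h3 := norm1_add_le (c + bdry ℝ G n w) (d + bdry ℝ G n v)
  linarith

theorem semi_smul_le (a : ℝ) (ha : 0 < a) (c : Chain ℝ G n) : semi (a • c) ≤ a * semi c := by
  refine le_of_forall_pos_lt_add fun ε hε => ?_
  obtain ⟨w, hw⟩ := exists_lt_of_semi_lt c (semi c + ε / a) (by linarith [div_pos hε ha])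
  have h1 := semi_le (a • c) (a • w)
  have h2 : a • c + bdry ℝ G n (a • w) = a • (c + bdry ℝ G n w) := by
    rw [map_smul, smul_add]
  rw [h2, norm1_smul, abs_of_pos ha] at h1
  have h3 : a * norm1 (c + bdry ℝ G n w) < a * (semi c + ε / a) :=
    mul_lt_mul_of_pos_left hw ha
  have h4 : a * (semi c + ε / a) = a * semi c + ε := by
    field_simp
  linarith

theorem semi_smul (a : ℝ) (ha : 0 < a) (c : Chain ℝ G n) : semi (a • c) = a * semi c := by
  refine le_antisymm (semi_smul_le a ha c) ?_
  have h := semi_smul_le a⁻¹ (inv_pos.2 ha) (a • c)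
  rw [smul_smul, inv_mul_cancel₀ ha.ne', one_smul] at h
  have h' := mul_le_mul_of_nonneg_left h ha.le
  rwa [← mul_assoc, mul_inv_cancel₀ ha.ne', one_mul] at h'

theorem semi_bdry (w : Chain ℝ G (n + 1)) : semi (bdry ℝ G n w) ≤ 0 := by
  have h := semi_le (bdry ℝ G n w) (-w)
  rwa [map_neg, add_neg_cancel, norm1_zero] at h

/-- Hahn-Banach: a chain on which all bounded cocycles vanish has vanishing seminorm. -/
theorem semi_le_zero (c : Chain ℝ G n)
    (h : ∀ f : (Fin n → G) → ℝ, IsBdd f → IsCocycle f → pairR f c = 0) : semi c ≤ 0 := by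
  by_cases hc : c = 0
  · subst hc
    have := semi_bdry (0 : Chain ℝ G (n + 1))
    simpa using this
  obtain ⟨F, hF1, hF2⟩ := exists_extension_of_le_sublinear
    (LinearPMap.mkSpanSingleton c (semi c) hc) semi (fun a ha x => semi_smul a ha x) semi_add
    (by
      rintro ⟨x, hx⟩
      obtain ⟨a, rfl⟩ := Submodule.mem_span_singleton.1 hx
      rw [LinearPMap.mkSpanSingleton'_apply]
      rw [RingHom.id_apply, smul_eq_mul]
      rcases lt_or_ge 0 a with ha | ha
      · exact (semi_smul a ha c).ge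
      · exact (mul_nonpos_of_nonpos_of_nonneg ha (semi_nonneg c)).trans (semi_nonneg _))
  have hb : ∀ x, |F x| ≤ norm1 x := by
    intro x
    have h1 : ∀ y : Chain ℝ G n, F y ≤ norm1 y := by
      intro y
      refine (hF2 y).trans ?_
      have := semi_le y 0
      rwa [map_zero, add_zero] at this
    rw [abs_le]
    constructor
    · have := h1 (-x)
      rw [map_neg, norm1_neg] at this
      linarith
    · exact h1 x
  have h0 : ∀ w, F (bdry ℝ G n w) = 0 := by
    intro w
    have h1 := (hF2 (bdry ℝ G n w)).trans (semi_bdry w)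
    have h2 := (hF2 (bdry ℝ G n (-w))).trans (semi_bdry (-w))
    rw [map_neg, map_neg] at h2
    linarith
  have hpair : pairR (fun g => F (Finsupp.single g 1)) = F := by
    ext g
    simp [pairR]
  have key := h (fun g => F (Finsupp.single g 1)) ?_ ?_
  · rw [hpair] at key
    have hs : F c = semi c := (hF1 ⟨c, Submodule.mem_span_singleton_self c⟩).trans
      (LinearPMap.mkSpanSingleton_apply ℝ ℝ hc (semi c))
    rw [key] at hs
    exact hs.ge
  · refine ⟨1, fun g => ?_⟩
    have := hb (Finsupp.single g 1)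
    rwa [norm1_single, abs_one] at this
  · intro g
    have := h0 (Finsupp.single g 1)
    rw [bdry_single, one_smul, bdrySingle, map_sum] at this
    rw [← this]
    refine Finset.sum_congr rfl fun i _ => ?_
    have h1 : Finsupp.single (face g i) ((-1 : ℝ) ^ (i : ℕ)) =
        ((-1 : ℝ) ^ (i : ℕ)) • Finsupp.single (face g i) (1 : ℝ) := by
      rw [Finsupp.smul_single, smul_eq_mul, mul_one]
    rw [h1, map_smul, smul_eq_mul]

end semi

end Pool.Agent.H8.SV
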